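import Pool.Agent.MP_48470b_gt.Dic.Red2
import Pool.Agent.MP_48470b_gt.Gap.G7

/-! From facts on the sorted boxes of a grid to the hypotheses of the analysis layer. -/

open Finset

noncomputable section

namespace Pool.Agent.MP_48470b_gt.Top

open Pool.Agent.MP_48470b_gt.Sph Pool.Agent.MP48470b.An Dic
open Pool.Agent.MP_48470b_gt.Gap (SP Eig)

/-- the closed box with index `M` -/
def InB (D : ℕ) (br : ℕ → ℕ) (M : I3 → ℕ) (x : P3) : Prop :=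
  ∀ a, (br (M a) : ℝ) ≤ D * x a ∧ D * x a ≤ br (M a + 1)

/-- sorted indices -/
def Srt (n : ℕ) (M : I3 → ℕ) : Prop := M 0 ≤ M 1 ∧ M 1 ≤ M 2 ∧ M 2 < n

/-- a block of indices -/
def Reg (lo hi M : I3 → ℕ) : Prop := ∀ a, lo a ≤ M a ∧ M a < hi a

instance (n : ℕ) (M : I3 → ℕ) : Decidable (Srt n M) := by unfold Srt; infer_instance
instance (lo hi M : I3 → ℕ) : Decidable (Reg lo hi M) := by unfold Reg; infer_instance

theorem Srt.mono {n : ℕ} {M : I3 → ℕ} (h : Srt n M) : Monotone M :=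
  Fin.monotone_iff_le_succ.2 fun i => by fin_cases i; exacts [h.1, h.2.1]

theorem Srt.lt {n : ℕ} {M : I3 → ℕ} (h : Srt n M) (a : I3) : M a < n :=
  (h.mono (Fin.le_last a)).trans_lt h.2.2

theorem cover1 {br : ℕ → ℕ} {lo hi : ℕ} (h : lo < hi) {t : ℝ} (h0 : (br lo : ℝ) ≤ t)
    (h1 : t ≤ br hi) : ∃ i, (lo ≤ i ∧ i < hi) ∧ (br i : ℝ) ≤ t ∧ t ≤ br (i + 1) := by
  induction hi, h using Nat.le_induction with
  | base => exact ⟨lo, ⟨le_rfl, lo.lt_succ_self⟩, h0, h1⟩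
  | succ k hk ih =>
    rcases le_total t (br k) with c | c
    · obtain ⟨i, a, b⟩ := ih c
      exact ⟨i, ⟨a.1, a.2.trans k.lt_succ_self⟩, b⟩
    · exact ⟨k, ⟨Nat.le_of_succ_le hk, k.lt_succ_self⟩, c, h1⟩

theorem br_le {n D : ℕ} {br : ℕ → ℕ} (G : Gap.Grid n D br) {i j : ℕ} (h : i ≤ j) (hj : j ≤ n) :
    br i ≤ br j := by
  induction j, h using Nat.le_induction with
  | base => exact le_rfl
  | succ k _ ih => exact (ih (by omega)).trans (G.lt k hj).le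

theorem inB_corner {n D : ℕ} {br : ℕ → ℕ} (G : Gap.Grid n D br) {M : I3 → ℕ} (h : Srt n M) :
    InB D br M fun a => br (M a) / D := fun a => by
  have hD : (D : ℝ) ≠ 0 := Nat.cast_ne_zero.2 G.pos.ne'
  rw [mul_div_cancel₀ _ hD]
  exact ⟨le_rfl, Nat.cast_le.2 (G.lt _ (h.lt a)).le⟩

/-- a point of a cell of the eigenvalue count lies in the box -/
theorem inB_cm {n D : ℕ} {br : ℕ → ℕ} (G : Gap.Grid n D br) {M : I3 → ℕ} (h : Srt n M)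
    {t : ℝ × ℝ × ℝ} (ht : Gap.Box (-1) 1 t) :
    InB D br M (Gap.tv3 (Gap.cm D br (M 0) (M 1) (M 2) t)) ∧ ∀ a,
      2 * (D * Gap.tv3 (Gap.cm D br (M 0) (M 1) (M 2) t) a) =
        br (M a) + br (M a + 1) + ((br (M a + 1) : ℝ) - br (M a)) * Gap.tv3 t a := by
  have hD : (D : ℝ) ≠ 0 := Nat.cast_ne_zero.2 G.pos.ne'
  have e : ∀ a, 2 * (D * Gap.tv3 (Gap.cm D br (M 0) (M 1) (M 2) t) a) =
      br (M a) + br (M a + 1) + ((br (M a + 1) : ℝ) - br (M a)) * Gap.tv3 t a := fun a => by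
    fin_cases a <;> simp [Gap.tv3, Gap.cm, Gap.c1] <;> field_simp
  refine ⟨fun a => ?_, e⟩
  have b : -1 ≤ Gap.tv3 t a ∧ Gap.tv3 t a ≤ 1 := by
    fin_cases a
    exacts [ht.1, ht.2.1, ht.2.2]
  have w : (br (M a) : ℝ) ≤ br (M a + 1) := Nat.cast_le.2 (G.lt _ (h.lt a)).le
  constructor <;> nlinarith [e a, b.1, b.2]

/-- the global parameters of the certificate -/
structure Par where
  n : ℕ
  D : ℕ
  br : ℕ → ℕ
  /-- words for the eigenvalue count -/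
  cw : ℕ → ℕ → ℕ → ℕ
  c : Nw
  /-- level of the count -/
  r : ℝ
  /-- a box inside the ball of radius `s`, a box outside the ball of radius `t` -/
  s : ℝ
  t : ℝ
  M₁ : I3 → ℕ
  M₂ : I3 → ℕ
  /-- eigenvalues, residuals, blocks with lower bounds, relative errors -/
  l : Fin 3 → ℝ
  η : Fin 3 → ℝ
  lo : Option (Fin 3) → I3 → ℕ
  hi : Option (Fin 3) → I3 → ℕ
  e : Option (Fin 3) → ℝ
  ε : Option (Fin 3) → ℝ

namespace Par

variable (P : Par) {f : I4 → R}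

/-- volume of a block -/
def vol (o : Option (Fin 3)) : ℝ :=
  ((P.br (P.hi o 0) : ℝ) / P.D - P.br (P.lo o 0) / P.D) *
    ((P.br (P.hi o 1) : ℝ) / P.D - P.br (P.lo o 1) / P.D) *
    ((P.br (P.hi o 2) : ℝ) / P.D - P.br (P.lo o 2) / P.D)

/-- conditions on the parameters -/
structure Ok : Prop where
  grid : Gap.Grid P.n P.D P.br
  e0 : 0 ≤ P.c.ε₀
  e1 : 0 ≤ P.c.ε₁
  m0 : 0 ≤ P.c.rm
  s0 : 0 ≤ P.s
  st : P.s + 1 / 1000 < P.t
  h₁ : Srt P.n P.M₁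
  h₂ : Srt P.n P.M₂
  lt : ∀ o a, P.lo o a < P.hi o a
  srt : ∀ o, P.hi o 0 ≤ P.lo o 1 + 1 ∧ P.hi o 1 ≤ P.lo o 2 + 1 ∧ P.hi o 2 ≤ P.n
  ep : ∀ o, 0 < P.e o
  ε0 : ∀ o, 0 ≤ P.ε o
  hη : ∀ k, P.η k ^ 2 ≤ P.ε (some k) ^ 2 * (3 * P.vol (some k) * P.e (some k))
  hl : (P.c.ε₀ + P.c.rm * P.c.ε₁) ^ 2 ≤ P.ε none ^ 2 * (3 * P.vol none * P.e none)

/-- the facts on one box -/
structure BoxOK (h : Imm f) (φ : Fin 3 → R) (M : I3 → ℕ) : Prop where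
  pt : ∀ x, InB P.D P.br M x → Pt2 P.c h x
  r₁ : M = P.M₁ → ∀ x, InB P.D P.br M x → ∑ k, cf f k x ^ 2 ≤ P.s ^ 2
  r₂ : M = P.M₂ → ∀ x, InB P.D P.br M x → P.t ^ 2 ≤ ∑ k, cf f k x ^ 2
  res : ∀ k x, InB P.D P.br M x →
    ch (rho h) x * (ch ((dc h).L (φ k)) x + P.l k * ch (φ k) x) ^ 2 ≤ P.η k ^ 2
  low : ∀ k, Reg (P.lo (some k)) (P.hi (some k)) M → ∀ x, InB P.D P.br M x →
    P.e (some k) * ww x ^ 2 ≤ ch (rho h) x * ch (φ k) x ^ 2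
  lam : Reg (P.lo none) (P.hi none) M → ∀ x, InB P.D P.br M x →
    P.e none * ww x ^ 2 ≤ ch (rho h) x * ch (dc h).lam x ^ 2
  cell : Gap.CellOK P.D P.br (Gap.bbF f) (Gap.vvF h P.r) (P.cw (M 0) (M 1) (M 2)) (M 0) (M 1) (M 2)

/-- the global facts -/
structure Facts (h : Imm f) (φ : Fin 3 → R) : Prop where
  all : All2 P.c h
  rad : ∃ x y, nr (fun k => f k x) + 1 / 1000 < nr fun k => f k y
  eig : ∀ k, Eig h (φ k) (P.l k) (P.ε (some k))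
  lam : Eig h (dc h).lam (-1) (P.ε none)
  cell : ∀ i j k, i ≤ j → j ≤ k → k < P.n →
    Gap.CellOK P.D P.br (Gap.bbF f) (Gap.vvF h P.r) (P.cw i j k) i j k

variable {P}

theorem Ok.sc (o : P.Ok) {Q : P3 → Prop} (H : ∀ M, Srt P.n M → ∀ x, InB P.D P.br M x → Q x) :
    ∀ x, SC x → Q x := fun x hx => by
  obtain ⟨M, h0, h1, h2, h3⟩ := cover o.grid hx
  exact H M ⟨h0, h1, h2⟩ x h3

theorem Ok.imm (o : P.Ok) (he : Eqv f {g | SP g})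
    (H : ∀ M, Srt P.n M → ∀ x, InB P.D P.br M x → ∃ B, 0 < Fm.jD (Fm.pb B) (cf f) x) : Imm f :=
  imm_of_box he (o.sc H)

theorem Ok.eig (o : P.Ok) (h : Imm f) (he : Eqv f {g | SP g}) {u : R} (hu : u ∈ Gap.Inv)
    (k : Option (Fin 3)) {l η : ℝ} (hr : (wi h).I (((dc h).L u + l • u) ^ 2) ≤ η ^ 2)
    (hη : η ^ 2 ≤ P.ε k ^ 2 * (3 * P.vol k * P.e k))
    (H : ∀ M, Srt P.n M → Reg (P.lo k) (P.hi k) M → ∀ x, InB P.D P.br M x →
      P.e k * ww x ^ 2 ≤ ch (rho h) x * ch u x ^ 2) : Eig h u l (P.ε k) := by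
  have hD : (0 : ℝ) < P.D := Nat.cast_pos.2 o.grid.pos
  obtain ⟨s0, s1, s2⟩ := o.srt k
  have l0 := o.lt k 0
  have l1 := o.lt k 1
  have l2 := o.lt k 2
  have hn : ∀ a, P.hi k a ≤ P.n := fun a => by
    fin_cases a
    exacts [show P.hi k 0 ≤ P.n by omega, show P.hi k 1 ≤ P.n by omega, s2]
  refine Gap.eig_box h he hu hr (p := fun a => P.br (P.lo k a) / P.D)
    (q := fun a => P.br (P.hi k a) / P.D) (fun a => by positivity)
    (fun a => div_le_div_of_nonneg_right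
      (Nat.cast_le.2 (br_le o.grid (o.lt k a).le (hn a))) hD.le)
    (fun a => (div_le_one hD).2 (Nat.cast_le.2 ((br_le o.grid (hn a) le_rfl).trans_eq o.grid.hn)))
    (o.ep k) (fun x hx => ?_) (o.ε0 k) hη
  choose M h1 h2 using fun a => cover1 (br := P.br) (o.lt k a) (t := P.D * x a)
    ((div_le_iff₀' hD).1 (hx a).1) ((le_div_iff₀' hD).1 (hx a).2)
  have a0 := h1 0
  have a1 := h1 1
  have a2 := h1 2
  exact H M ⟨by omega, by omega, by omega⟩ h1 x h2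

/-- **From the boxes to the global facts.** -/
theorem Ok.facts (o : P.Ok) (h : Imm f) (he : Eqv f {g | SP g}) {φ : Fin 3 → R}
    (hφ : ∀ k, φ k ∈ Gap.Inv) (H : ∀ M, Srt P.n M → P.BoxOK h φ M) : P.Facts h φ := by
  have a := all2_of_box he (o.sc fun M hM => (H M hM).pt)
  refine ⟨a, two_radii ⟨fun a => P.br (P.M₁ a) / P.D, fun a => P.br (P.M₂ a) / P.D, ?_⟩, fun k => o.eig h he (hφ k) _
    (res_box h he (hφ k) (o.sc fun M hM => (H M hM).res k)) (o.hη k) fun M hM => (H M hM).low k,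
    o.eig h he (Gap.lam_inv h he) _ (a.res_lam o.e0 o.e1 o.m0) o.hl fun M hM => (H M hM).lam,
    fun i j k h1 h2 h3 => (H ![i, j, k] ⟨h1, h2, h3⟩).cell⟩
  have h1 := nr_le_of_sq o.s0 ((H _ o.h₁).r₁ rfl _ (inB_corner o.grid o.h₁))
  have h2 := (H _ o.h₂).r₂ rfl _ (inB_corner o.grid o.h₂)
  rw [← nr_sq] at h2
  have h3 := (abs_le_of_sq_le_sq' h2 (nr_nonneg _)).2
  linarith [o.st]

/-- the gap from the facts and the count -/
theorem Facts.gap {h : Imm f} (he : Eqv f {g | SP g}) {φ : Fin 3 → R} (H : P.Facts h φ)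
    (cnt : ∀ bb vv, (∀ i j k, i ≤ j → j ≤ k → k < P.n →
      Gap.CellOK P.D P.br bb vv (P.cw i j k) i j k) → Gap.Count bb vv)
    (hr : 1 / 4 ≤ P.r) (e0 : P.ε (some 0) = 5) (e1 : P.ε (some 1) = 1) (e2 : P.ε (some 2) = 3 / 100)
    (e3 : P.ε none = 4 / 5) (b1 : P.l 0 ≤ -11) (b2 : -4 ≤ P.l 1 ∧ P.l 1 ≤ -3)
    (b4 : 18 / 100 ≤ P.l 2 ∧ P.l 2 ≤ 19 / 100) : ∀ w ∈ invSub {g | SP g},
      I (rho h * w ^ 2) ≤ (20 / 3) ^ 2 * I (rho h * (dc h).L w ^ 2) :=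
  Gap.gap_num h he hr (cnt _ _ H.cell) (e0 ▸ H.eig 0) (e1 ▸ H.eig 1) (e3 ▸ H.lam) (e2 ▸ H.eig 2)
    b1 b2 b4

/-- the first numerical instance as a special case -/
theorem Facts.num1 {h : Imm f} {φ : Fin 3 → R} (H : P.Facts h φ) {s₀ s₁ s₂ : ℝ}
    (z : P.c.z₁ = 0 ∧ P.c.z₂ = s₀ ^ 2) (d : P.c.d₁ = 0 ∧ P.c.d₂ = s₁ ^ 2)
    (c : P.c.c₁ = 0 ∧ P.c.c₂ = s₂ ^ 2) :
    AllOK ⟨P.c.α, P.c.a₁, P.c.a₂, P.c.ε₀, P.c.ε₁, P.c.e₂, s₀, s₁, s₂⟩ h :=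
  ⟨fun x => (H.all.z x).hA, fun x => (H.all.a x).hA', fun x => (H.all.a x).hA'',
    fun x => (H.all.r x).r0, fun x => (H.all.r x).r1, fun x => (H.all.r x).r2,
    fun x => (H.all.z x).s0.trans_eq (by rw [z.1, z.2, rho_J]; ring),
    fun x => (H.all.z x).s1.trans_eq (by rw [d.1, d.2, rho_J]; ring),
    fun x => (H.all.z x).s2.trans_eq (by rw [c.1, c.2, rho_J]; ring), H.all.chk⟩

end Par

end Pool.Agent.MP_48470b_gt.Top
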