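import Pool.Agent.MP_48470b_gt.An.Num2
import Pool.Agent.MP_48470b_gt.Dic.Red2

/-! The analysis layer applied to the record of pointwise inequalities. -/

namespace Pool.Agent.MP_48470b_gt.Top

open Finset Pool.Agent.MP_48470b_gt.Sph Pool.Agent.MP48470b.An Pool.Agent.MP_48470b_gt.Dic

/-- the constants -/
noncomputable def nw2 : Nw where
  α := 17 / 2
  a₁ := 4000
  a₂ := 100000000
  ε₀ := 127 / 250000000000
  ε₁ := 509 / 1000000
  e₂ := 1000000
  z₁ := 27 / 20000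
  z₂ := 2
  z₃ := 710649 / 1000000
  d₁ := 36
  d₂ := 8000
  d₃ := 15625 / 4
  c₁ := 135
  c₂ := 3000
  c₃ := 784
  rm := 163 / 25
  x₁ := 26 / 5
  x₂ := 92
  y₁ := 100000
  y₂ := 16000000
  v₁ := 900
  v₂ := 16500
  εv := 509 / 100000

theorem not_uniq_all2 {f : I4 → R} {h : Imm f} (he : Eqv f {g | Gap.SP g}) (H : All2 nw2 h)
    (gap : ∀ w ∈ invSub {g | Gap.SP g},
      I (rho h * w ^ 2) ≤ (20 / 3) ^ 2 * I (rho h * (dc h).L w ^ 2))
    (hr : ∃ x y, nr (fun k => f k x) + 1 / 1000 < nr fun k => f k y) : ¬ Geo.Uniq :=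
  not_uniq_num2 h he (fun x => (H.z x).hA) (fun x => (H.a x).hA') (fun x => (H.a x).hA'')
    (fun x => (H.r x).r0) (fun x => (H.r x).r1) (fun x => (H.r x).rv) (fun x => (H.r x).r2)
    (fun x => (H.z x).rm) (fun x => (H.z x).hx) (fun x => (H.a x).hy) (fun x => (H.z x).v1)
    (fun x => (H.z x).v2) (fun x => (H.z x).s0) (fun x => (H.z x).s1) (fun x => (H.z x).s2)
    (fun x => (H.z x).t0.trans_eq (by norm_num [nw2]))
    (fun x => (H.z x).t1.trans_eq (by norm_num [nw2]))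
    (fun x => (H.z x).t2.trans_eq (by norm_num [nw2])) gap H.chk hr

end Pool.Agent.MP_48470b_gt.Top
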