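import Pool.Agent.MP_48470b_gt.Ck.Cst
import Pool.Agent.MP_48470b_gt.Ck.Low
import Pool.Agent.MP_48470b_gt.Top.Num

/-! The theorem from the runs on all sorted boxes and the eigenvalue count. -/

namespace Pool.Agent.MP_48470b_gt.Top

open Ck Dic Pool.Agent.MP48470b.An Pool.Agent.MP_48470b_gt.Sph

theorem kn0_nw : kn0.nw = nw2 := by
  simp only [Kn.nw, kn0, nw2]
  norm_num

theorem ke0_ok : ke0.ok = true := by decide +kernel

variable {e : Ke} {cw : ℕ → ℕ → ℕ → ℕ}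

theorem blk_sound {n : Kn} {k : Fin 3} {q : ℕ} (h : e.blk k q = true)
    (hq : (par n e cw).ε (some k) ^ 2 = q / 10000) :
    (∀ a, e.lo k a < e.hi k a) ∧
    (e.hi k 0 ≤ e.lo k 1 + 1 ∧ e.hi k 1 ≤ e.lo k 2 + 1 ∧ e.hi k 2 ≤ nb) ∧
    0 < (par n e cw).e (some k) ∧ (par n e cw).η k ^ 2 ≤ (par n e cw).ε (some k) ^ 2 *
      (3 * (par n e cw).vol (some k) * (par n e cw).e (some k)) := by
  simp only [Ke.blk, Bool.and_eq_true, Nat.blt_eq, Nat.ble_eq] at h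
  obtain ⟨⟨⟨⟨⟨⟨⟨a0, a1⟩, a2⟩, b0⟩, b1⟩, b2⟩, c⟩, d⟩ := h
  have s : ∀ a, e.lo k a < e.hi k a → e.hi k a ≤ nb →
      (br (e.hi k a) : ℝ) / (512 : ℕ) - br (e.lo k a) / (512 : ℕ) = e.sd k a / 512 :=
    fun a h1 h2 => by rw [Ke.sd, Nat.cast_sub (br_le grid h1.le h2)]; push_cast; ring
  refine ⟨fun a => by fin_cases a; exacts [a0, a1, a2], ⟨b0, b1, b2⟩,
    show (0 : ℝ) < e.el k / 2 ^ 64 by positivity, ?_⟩
  have d' := (Nat.cast_le (α := ℝ)).2 d
  push_cast at d'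
  rw [hq, show (par n e cw).vol (some k) = _ from
    congrArg₂ (· * ·) (congrArg₂ (· * ·) (s 0 a0 (by omega)) (s 1 a1 (by omega))) (s 2 a2 b2)]
  change ((e.et k : ℝ) / 2 ^ 32) ^ 2 ≤ _ * (_ * (e.el k / 2 ^ 64))
  linarith

theorem par_ok (h : e.ok = true) : (par kn0 e cw).Ok ∧ (par kn0 e cw).l 0 ≤ -11 ∧
    (-4 ≤ (par kn0 e cw).l 1 ∧ (par kn0 e cw).l 1 ≤ -3) ∧
    18 / 100 ≤ (par kn0 e cw).l 2 ∧ (par kn0 e cw).l 2 ≤ 19 / 100 := by
  simp only [Ke.ok, Bool.and_eq_true, Nat.blt_eq, decide_eq_true_eq] at h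
  obtain ⟨⟨⟨⟨⟨⟨⟨⟨⟨⟨k0, k1⟩, k2⟩, d0⟩, d1⟩, d2⟩, l0⟩, l1⟩, l2⟩, l3⟩, l4⟩ := h
  have b : ∀ k, _ := fun k : Fin 3 => blk_sound (n := kn0) (cw := cw) (k := k)
    (q := ![250000, 10000, 9] k) (by fin_cases k; exacts [k0, k1, k2])
    (by fin_cases k <;> norm_num [par])
  have le : ∀ {k : Fin 3} {a c : ℤ}, 0 < e.d k → 0 < c → c * e.k k ≤ a * e.d k →
      (par kn0 e cw).l k ≤ a / c - 1 / 2 := fun {k a c} d hc h => by
    refine sub_le_sub_right ((div_le_div_iff₀ (by positivity) (by positivity)).2 ?_) _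
    rw [mul_comm]; exact_mod_cast h
  have ge : ∀ {k : Fin 3} {a c : ℤ}, 0 < e.d k → 0 < c → a * e.d k ≤ c * e.k k →
      a / c - 1 / 2 ≤ (par kn0 e cw).l k := fun {k a c} d hc h => by
    refine sub_le_sub_right ((div_le_div_iff₀ (by positivity) (by positivity)).2 ?_) _
    rw [mul_comm (e.k k : ℝ)]; exact_mod_cast h
  refine ⟨⟨grid, ?_, ?_, ?_, ?_, ?_, (by decide : Srt nb kn0.M1), (by decide : Srt nb kn0.M2),
    fun o => ?_, fun o => ?_,
    fun o => ?_, fun o => ?_, fun k => (b k).2.2.2, ?_⟩, (le d0 (by decide) l0).trans (by norm_num),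
    ⟨le_trans (by norm_num) (ge d1 (by decide) l1), (le d1 (by decide) l2).trans (by norm_num)⟩,
    le_trans (by norm_num) (ge d2 (by decide) l3), (le d2 (by decide) l4).trans (by norm_num)⟩
  iterate 5 norm_num [par, kn0, Kn.nw]
  · cases o with
    | none => exact (by decide : ∀ a, kn0.lo a < kn0.hi a)
    | some k => exact (b k).1
  · cases o with
    | none => exact (by decide : 12 ≤ 14 + 1 ∧ 18 ≤ 18 + 1 ∧ 23 ≤ 23)
    | some k => exact (b k).2.1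
  · cases o with
    | none => norm_num [par, kn0]
    | some k => exact (b k).2.2.1
  · cases o with
    | none => norm_num [par]
    | some k => fin_cases k <;> norm_num [par]
  · have v : (par kn0 e cw).vol none = ((254 : ℕ) / (512 : ℕ) - (166 : ℕ) / (512 : ℕ)) *
      ((398 : ℕ) / (512 : ℕ) - (302 : ℕ) / (512 : ℕ)) *
      ((512 : ℕ) / (512 : ℕ) - (398 : ℕ) / (512 : ℕ)) := rfl
    rw [v]
    norm_num [par, kn0, Kn.nw]

/-- the two runs pass on the box `K` -/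
def Runs (f : I4 → R) (φ : Fin 3 → R) (e : Ke) (w : ℕ) (K : Fin 3 → ℕ) : Prop :=
  ∃ (x x' : Ar) (z z' : Fin 4 → Fn) (u : Fin 3 → Fn) (L L' LH et : ℕ) (X : Fin 3 → C3)
    (δ : I3 → Derivation ℝ C3 C3) (B : Matrix I3 I3 ℝ) (v : C3),
    x.Pre x' z z' u K L L' LH X δ B (cf f) (fun k => ch (φ k)) v ∧
    x.low (bdK K) z u kn0 e K L LH et w = true ∧ x'.high z' et = true

/-- **The theorem from the runs and the count.** -/
theorem final_of {f : I4 → R} {φ : Fin 3 → R} (he : Eqv f {g | Gap.SP g})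
    (hφ : ∀ k, φ k ∈ Gap.Inv) (ok : e.ok = true)
    (H : ∀ K, Srt nb K → Runs f φ e (cw (K 0) (K 1) (K 2)) K)
    (cnt : ∀ bb vv, (∀ i j k, i ≤ j → j ≤ k → k < nb →
      Gap.CellOK 512 br bb vv (cw i j k) i j k) → Gap.Count bb vv) : ¬ Geo.Uniq := by
  obtain ⟨o, b1, b2, b4⟩ := par_ok (cw := cw) ok
  have h : Imm f := o.imm he fun K hK y hy => by
    obtain ⟨_, _, _, _, _, _, _, _, _, _, _, _, _, p, l, -⟩ := H K hK
    exact p.imm l y hy
  have F := o.facts h he hφ fun K hK => by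
    obtain ⟨_, _, _, _, _, _, _, _, _, _, _, _, _, p, l, r⟩ := H K hK
    exact p.box h hK l r
  exact not_uniq_all2 he (kn0_nw ▸ F.all)
    (F.gap he cnt (by norm_num [par]) rfl rfl rfl rfl b1 b2 b4) F.rad

end Pool.Agent.MP_48470b_gt.Top
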